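import Pool.Agent.H498R2.HO.Refl
import Pool.Agent.H917R2.HS.Stubs

/-!
ROOM HS (helper227): the commutative ring `Q` of polynomials for kernel evaluation (quotient of
helper498's type `P` by equality of values), so that any expression which is polymorphic over
commutative rings can be evaluated by the kernel.
-/

set_option autoImplicit false

namespace H227HS

open H498HO

/-- points of evaluation -/
def Om : Type := {z : (ℕ → ℝ) × ℝ // z.1 2 ^ 2 + z.2 ^ 2 = 1}

/-- value at a point -/
noncomputable def evP (p : P) (z : Om) : ℝ := p.ev z.1.1 z.1.2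

/-- equality of values -/
instance stP : Setoid P := ⟨fun p q => evP p = evP q, ⟨fun _ => rfl, fun h => h.symm, fun h1 h2 => h1.trans h2⟩⟩

/-- the ring -/
def Q : Type := Quotient stP

namespace Q

/-- class -/
def mk (p : P) : Q := Quotient.mk stP p

/-- value -/
noncomputable def ev (q : Q) : Om → ℝ := Quotient.lift evP (fun _ _ h => h) q

theorem ev_inj : Function.Injective ev := by
  intro a b
  refine Quotient.inductionOn₂ a b fun p q h => ?_
  exact Quotient.sound h

theorem ev_mk (p : P) : ev (mk p) = evP p := rfl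

/-- lift of a unary operation -/
def un (f : P → P) (hf : ∀ p q : P, evP p = evP q → evP (f p) = evP (f q)) (a : Q) : Q :=
  Quotient.lift (fun p => mk (f p)) (fun p q h => Quotient.sound (hf p q h)) a

/-- lift of a binary operation -/
def bi (f : P → P → P) (hf : ∀ p q p' q' : P, evP p = evP p' → evP q = evP q' →
    evP (f p q) = evP (f p' q')) (a b : Q) : Q :=
  Quotient.lift₂ (fun p q => mk (f p q)) (fun p q p' q' h h' => Quotient.sound (hf p q p' q' h h')) a b

theorem evP_add (p q : P) : evP (p + q) = evP p + evP q := by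
  funext z; exact P.ev_add p q

theorem evP_sub (p q : P) : evP (p - q) = evP p - evP q := by
  funext z; exact P.ev_sub p q

theorem evP_neg (p : P) : evP (-p) = -evP p := by
  funext z; exact P.ev_neg p

theorem evP_mul (p q : P) : evP (p * q) = evP p * evP q := by
  funext z; exact P.ev_mul z.2 p q

theorem evP_num (c : ℤ) : evP (P.num c) = (c : Om → ℝ) := by
  funext z
  refine (P.ev_num (x := z.1.1) (s := z.1.2) c).trans ?_
  simp

instance : Add Q := ⟨bi (· + ·) (fun p q p' q' h h' => by rw [evP_add, evP_add, h, h'])⟩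
instance : Sub Q := ⟨bi (· - ·) (fun p q p' q' h h' => by rw [evP_sub, evP_sub, h, h'])⟩
instance : Mul Q := ⟨bi (· * ·) (fun p q p' q' h h' => by rw [evP_mul, evP_mul, h, h'])⟩
instance : Neg Q := ⟨un (- ·) (fun p q h => by rw [evP_neg, evP_neg, h])⟩
instance : Zero Q := ⟨mk ⟨[], []⟩⟩
instance : One Q := ⟨mk (P.num 1)⟩
instance : NatCast Q := ⟨fun n => mk (P.num n)⟩
instance : IntCast Q := ⟨fun n => mk (P.num n)⟩
instance : SMul ℕ Q := ⟨fun n a => (n : Q) * a⟩
instance : SMul ℤ Q := ⟨fun n a => (n : Q) * a⟩
instance : Pow Q ℕ := ⟨fun a n => Nat.rec (mk (P.num 1)) (fun _ b => b * a) n⟩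

theorem ev_add (a b : Q) : ev (a + b) = ev a + ev b := by
  refine Quotient.inductionOn₂ a b fun p q => evP_add p q

theorem ev_sub (a b : Q) : ev (a - b) = ev a - ev b := by
  refine Quotient.inductionOn₂ a b fun p q => evP_sub p q

theorem ev_mul (a b : Q) : ev (a * b) = ev a * ev b := by
  refine Quotient.inductionOn₂ a b fun p q => evP_mul p q

theorem ev_neg (a : Q) : ev (-a) = -ev a := by
  refine Quotient.inductionOn a fun p => evP_neg p

theorem ev_zero : ev (0 : Q) = 0 := by
  funext z
  show evP ⟨[], []⟩ z = 0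
  simp [evP, P.ev, evL]

theorem ev_one : ev (1 : Q) = 1 := by
  show evP (P.num 1) = 1
  rw [evP_num]; simp

theorem ev_nat (n : ℕ) : ev (n : Q) = n := by
  show evP (P.num n) = n
  rw [evP_num]; simp

theorem ev_int (n : ℤ) : ev (n : Q) = n := by
  show evP (P.num n) = n
  rw [evP_num]

theorem ev_pow (a : Q) (n : ℕ) : ev (a ^ n) = ev a ^ n := by
  induction n with
  | zero => exact ev_one.trans (pow_zero _).symm
  | succ n ih =>
    have : a ^ (n + 1) = a ^ n * a := rfl
    rw [this, ev_mul, ih, pow_succ]

noncomputable instance : CommRing Q :=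
  Function.Injective.commRing ev ev_inj ev_zero ev_one ev_add ev_mul ev_neg ev_sub
    (fun n a => by
      have : n • a = (n : Q) * a := rfl
      rw [this, ev_mul, ev_nat, nsmul_eq_mul])
    (fun n a => by
      have : n • a = (n : Q) * a := rfl
      rw [this, ev_mul, ev_int, zsmul_eq_mul])
    (fun a n => ev_pow a n) ev_nat ev_int

/-- decision procedure for the kernel -/
noncomputable instance decZ (a : Q) : Decidable (a = 0) :=
  Quotient.recOnSubsingleton (motive := fun a : Q => Decidable (a = 0)) a fun p =>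
    match h : p.isZ with
    | true => isTrue (ev_inj (by
        rw [ev_zero]
        funext z
        exact P.ev_isZ h))
    | false => Classical.propDecidable _

/-- evaluation at a point -/
noncomputable def at' (x : ℕ → ℝ) (s : ℝ) (hs : x 2 ^ 2 + s ^ 2 = 1) : Q →+* ℝ where
  toFun a := ev a ⟨(x, s), hs⟩
  map_one' := by rw [ev_one]; rfl
  map_mul' a b := by rw [ev_mul]; rfl
  map_zero' := by rw [ev_zero]; rfl
  map_add' a b := by rw [ev_add]; rfl

/-- variable -/
def var (n : ℕ) : Q := mk (P.var n)
/-- the sine -/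
def sn : Q := mk P.sn

theorem at_var {x : ℕ → ℝ} {s : ℝ} (hs : x 2 ^ 2 + s ^ 2 = 1) {n : ℕ} (hn : n.Prime) :
    at' x s hs (var n) = x n := P.ev_var hn

theorem at_sn {x : ℕ → ℝ} {s : ℝ} (hs : x 2 ^ 2 + s ^ 2 = 1) : at' x s hs sn = s := P.ev_sn

end Q

/-! ### tests -/

example : (Q.var 2) * (Q.var 3) - (Q.var 3) * (Q.var 2) = 0 := by decide +kernel

example : (Q.var 2) * (Q.var 2) + Q.sn * Q.sn - 1 = 0 := by decide +kernel

end H227HS
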